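import Mathlib
import Pool.Agent.R528.RM.EH7

set_option autoImplicit false

/-!
# The Elliott–Halberstam sum in random models of the primes

The integers are decided one after the other, only integers coprime to a fixed `Q` can be chosen,
the conditional probability of choosing `n + 1` (coprime to `Q`) given the past is asymptotic to
`(Q / φ(Q)) / log n` and nonincreasing in `n` (no independence is assumed; for `Q = 1` Cramér's
model and the Hawkins random sieve are examples).  For each `0 < θ < 1` we determine, almost surely,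
the exact asymptotic order of the Elliott–Halberstam sum `S_θ(x)`:

`S_θ(x) ~ √(2 θ x) ∑_{q ≤ x^θ} φ_Q(q) ^ (-1/2)`, so `S_θ(x) ~ 2 √(2 θ) x ^ ((1 + θ) / 2)` for `Q = 1`.
-/

open MeasureTheory Filter
open scoped Topology

namespace Pool.Agent.Results.MP_848d44_nt.MeanOfMaximaRandomModels

/-- the number of admissible classes: residues `a` modulo `q` without common factor with
`gcd(q, Q)` -/
def phiQ (Q q : ℕ) : ℕ := ((Finset.range q).filter (fun a => Nat.Coprime a (Nat.gcd q Q))).card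

/-- the number of elements of `S` in `[1, x]` -/
noncomputable def piS (S : Set ℕ) (x : ℕ) : ℕ := Set.ncard {n : ℕ | n ∈ S ∧ 1 ≤ n ∧ n ≤ x}

/-- the number of elements of `S` in `[1, x]` congruent to `a` modulo `q` -/
noncomputable def piA (S : Set ℕ) (x q a : ℕ) : ℕ := Set.ncard {n : ℕ | n ∈ S ∧ 1 ≤ n ∧ n ≤ x ∧ n ≡ a [MOD q]}

/-- the largest deviation among the admissible classes modulo `q` -/
noncomputable def E (S : Set ℕ) (Q x q : ℕ) : ℝ :=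
  sSup {y : ℝ | ∃ a, a < q ∧ Nat.Coprime a (Nat.gcd q Q) ∧ y = |(piA S x q a : ℝ) - (piS S x : ℝ) / phiQ Q q|}

/-- the Elliott–Halberstam sum -/
noncomputable def Sθ (S : Set ℕ) (Q : ℕ) (θ : ℝ) (x : ℕ) : ℝ := ∑ q ∈ Finset.Icc 1 ⌊(x : ℝ) ^ θ⌋₊, E S Q x q

open Pool.Agent.R528.RM

lemma phiQ_eq (Q q : ℕ) : phiQ Q q = (adm Q q).card := rfl

lemma Ncl_card {Ω : Type} {A : ℕ → Set Ω} (R : Finset ℕ) (ω : Ω) [DecidablePred fun n => ω ∈ A n] :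
    Ncl A R ω = ((R.filter (fun n => ω ∈ A n)).card : ℝ) := by
  unfold Ncl In
  rw [Finset.card_filter]
  push_cast
  refine Finset.sum_congr rfl fun n _ => ?_
  rw [Set.indicator_apply]

lemma piA_eq {Ω : Type} {A : ℕ → Set Ω} {Q : ℕ} (hcop : ∀ n, ¬ Nat.Coprime n Q → A n = ∅) {x q a : ℕ} (ha : a < q) (ω : Ω) :
    (piA {k | ω ∈ A k} x q a : ℝ) = Ncl A (cls Q q a 0 x) ω := by
  classical
  rw [Ncl_card]
  unfold piA
  have h1 : {n : ℕ | n ∈ {k | ω ∈ A k} ∧ 1 ≤ n ∧ n ≤ x ∧ n ≡ a [MOD q]} =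
      (((cls Q q a 0 x).filter (fun n => ω ∈ A n) : Finset ℕ) : Set ℕ) := by
    ext n
    simp only [Set.mem_ofPred_eq, Finset.coe_filter, mem_cls]
    constructor
    · rintro ⟨h1, h2, h3, h4⟩
      refine ⟨⟨⟨by omega, h3⟩, ?_, ?_⟩, h1⟩
      · rw [Nat.ModEq, Nat.mod_eq_of_lt ha] at h4
        exact h4
      · by_contra hc
        rw [hcop n hc] at h1
        exact h1
    · rintro ⟨⟨⟨h1, h2⟩, h3, h4⟩, h5⟩
      refine ⟨h5, by omega, h2, ?_⟩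
      rw [Nat.ModEq, Nat.mod_eq_of_lt ha]
      exact h3
  rw [h1, Set.ncard_coe_finset]

lemma piS_eq {Ω : Type} {A : ℕ → Set Ω} {Q : ℕ} (hcop : ∀ n, ¬ Nat.Coprime n Q → A n = ∅) {x : ℕ} (ω : Ω) :
    (piS {k | ω ∈ A k} x : ℝ) = Ncl A (cls Q 1 0 0 x) ω := by
  rw [← piA_eq hcop one_pos]
  have h1 : {n : ℕ | n ∈ {k | ω ∈ A k} ∧ 1 ≤ n ∧ n ≤ x ∧ n ≡ 0 [MOD 1]} = {n : ℕ | n ∈ {k | ω ∈ A k} ∧ 1 ≤ n ∧ n ≤ x} := by
    ext n
    simp only [Set.mem_ofPred_eq, Nat.modEq_one, and_true]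
  unfold piS piA
  rw [h1]

lemma E_eq {Ω : Type} {A : ℕ → Set Ω} {Q : ℕ} (hcop : ∀ n, ¬ Nat.Coprime n Q → A n = ∅) (x q : ℕ) (ω : Ω) :
    E {k | ω ∈ A k} Q x q = EE A Q x q ω := by
  unfold E EE
  congr 1
  ext y
  simp only [Set.mem_ofPred_eq, Set.mem_image, Finset.mem_coe]
  constructor
  · rintro ⟨a, h1, h2, rfl⟩
    refine ⟨a, mem_adm.2 ⟨h1, h2⟩, ?_⟩
    unfold Dv
    rw [piA_eq hcop h1, piS_eq hcop, phiQ_eq]
  · rintro ⟨a, h1, rfl⟩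
    obtain ⟨h2, h3⟩ := mem_adm.1 h1
    refine ⟨a, h2, h3, ?_⟩
    unfold Dv
    rw [piA_eq hcop h2, piS_eq hcop, phiQ_eq]

lemma sum_Bmn (Q : ℕ) (θ : ℝ) (x Y : ℕ) :
    ∑ q ∈ Finset.Icc 1 Y, Bmn Q θ x q = √(2 * θ * x) * ∑ q ∈ Finset.Icc 1 Y, 1 / √(phiQ Q q : ℝ) := by
  rw [Finset.mul_sum]
  refine Finset.sum_congr rfl fun q _ => ?_
  unfold Bmn
  rw [Real.sqrt_div' _ (Nat.cast_nonneg _), phiQ_eq]
  ring

lemma sum_inv_sqrt_ge (Y : ℕ) : 2 * √((Y : ℝ) + 1) - 2 ≤ ∑ q ∈ Finset.Icc 1 Y, 1 / √(q : ℝ) := by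
  induction Y with
  | zero => simp
  | succ Y ih =>
    rw [Finset.sum_Icc_succ_top (by omega)]
    have h1 : (0 : ℝ) < (Y : ℝ) + 1 := by positivity
    have h2 : 0 < √((Y : ℝ) + 1) := Real.sqrt_pos.2 h1
    have h3 := Real.sq_sqrt h1.le
    have h4 := Real.sq_sqrt (show (0 : ℝ) ≤ (Y : ℝ) + 1 + 1 by positivity)
    have h6 : 2 * √((Y : ℝ) + 1 + 1) - 2 * √((Y : ℝ) + 1) ≤ 1 / √((Y : ℝ) + 1) := by
      rw [le_div_iff₀ h2]
      nlinarith only [h3, h4, sq_nonneg (√((Y : ℝ) + 1 + 1) - √((Y : ℝ) + 1))]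
    push_cast
    linarith only [ih, h6]

lemma phiQ_one (q : ℕ) : phiQ 1 q = q := by
  unfold phiQ
  simp

/-- the sum of `q ^ (-1/2)` -/
lemma sum_lim {θ : ℝ} (hθ : 0 < θ) :
    Tendsto (fun x : ℕ => (∑ q ∈ Finset.Icc 1 ⌊(x : ℝ) ^ θ⌋₊, 1 / √(q : ℝ)) / (x : ℝ) ^ (θ / 2)) atTop (𝓝 2) := by
  have h1 : Tendsto (fun x : ℕ => 2 - 2 * (x : ℝ) ^ (-(θ / 2))) atTop (𝓝 2) := by
    have h2 : Tendsto (fun x : ℕ => (x : ℝ) ^ (-(θ / 2))) atTop (𝓝 0) :=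
      (tendsto_rpow_neg_atTop (by positivity)).comp tendsto_natCast_atTop_atTop
    have h3 := (tendsto_const_nhds (x := (2 : ℝ))).sub (h2.const_mul 2)
    rwa [mul_zero, sub_zero] at h3
  refine tendsto_of_tendsto_of_tendsto_of_le_of_le' h1 tendsto_const_nhds ?_ ?_
  · filter_upwards [eventually_gt_atTop 0] with x hx
    have hx' : (0 : ℝ) < x := by exact_mod_cast hx
    have hp : 0 < (x : ℝ) ^ (θ / 2) := Real.rpow_pos_of_pos hx' _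
    have e1 := sum_inv_sqrt_ge ⌊(x : ℝ) ^ θ⌋₊
    have e2 : (x : ℝ) ^ (θ / 2) ≤ √((⌊(x : ℝ) ^ θ⌋₊ : ℝ) + 1) := by
      apply Real.le_sqrt_of_sq_le
      rw [← Real.rpow_natCast, ← Real.rpow_mul hx'.le]
      have e4 : θ / 2 * ((2 : ℕ) : ℝ) = θ := by push_cast; ring
      rw [e4]
      exact (Nat.lt_floor_add_one _).le
    rw [le_div_iff₀ hp, Real.rpow_neg hx'.le, sub_mul, mul_assoc, inv_mul_cancel₀ hp.ne']
    linarith only [e1, e2]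
  · filter_upwards [eventually_gt_atTop 0] with x hx
    have hx' : (0 : ℝ) < x := by exact_mod_cast hx
    have hp : 0 < (x : ℝ) ^ (θ / 2) := Real.rpow_pos_of_pos hx' _
    rw [div_le_iff₀ hp]
    refine (sum_inv_sqrt _).trans ?_
    have e2 : √(⌊(x : ℝ) ^ θ⌋₊ : ℝ) ≤ (x : ℝ) ^ (θ / 2) := by
      apply Real.sqrt_le_iff.2
      refine ⟨hp.le, ?_⟩
      rw [← Real.rpow_natCast, ← Real.rpow_mul hx'.le]
      have e4 : θ / 2 * ((2 : ℕ) : ℝ) = θ := by push_cast; ring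
      rw [e4]
      exact Nat.floor_le (by positivity)
    linarith only [e2]

end Pool.Agent.Results.MP_848d44_nt.MeanOfMaximaRandomModels

open Pool.Agent.Results.MP_848d44_nt.MeanOfMaximaRandomModels

/-- Let `A n` be the event that `n` belongs to a random set adapted to a filtration `ℱ`, let
`Q ≥ 1`, let no integer which is not coprime to `Q` be chosen, and let almost surely the conditional
probability of `A (n + 1)` given `ℱ n` be nonincreasing along the `n` with `n + 1` coprime to `Q`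
and, times `log n`, tend to `Q / φ(Q)` along these `n`.  Then for every `0 < θ < 1`, almost surely,
`S_θ(x) ~ √(2 θ x) ∑_{q ≤ x^θ} φ_Q(q) ^ (-1/2)`, and if `Q = 1` then
`S_θ(x) ~ 2 √(2 θ) x ^ ((1 + θ) / 2)`. -/
theorem Pool.Agent.Results.MP_848d44_nt.MeanOfMaximaRandomModels.result
    {Ω : Type} [mΩ : MeasurableSpace Ω] (μ : Measure Ω) [IsProbabilityMeasure μ]
    (ℱ : Filtration ℕ mΩ) (A : ℕ → Set Ω) (hA : ∀ n, MeasurableSet[ℱ n] (A n))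
    (Q : ℕ) (hQ : 0 < Q) (hcop : ∀ n, ¬ Nat.Coprime n Q → A n = ∅)
    (hd : ∀ᵐ ω ∂μ, Tendsto (fun n : ℕ =>
      (μ[(A (n + 1)).indicator (fun _ => (1 : ℝ)) | ℱ n]) ω * Real.log n)
      (atTop ⊓ 𝓟 {n : ℕ | Nat.Coprime (n + 1) Q}) (𝓝 ((Q : ℝ) / Nat.totient Q)))
    (hmono : ∀ᵐ ω ∂μ, ∀ m n : ℕ, m ≤ n → Nat.Coprime (m + 1) Q → Nat.Coprime (n + 1) Q →
      (μ[(A (n + 1)).indicator (fun _ => (1 : ℝ)) | ℱ n]) ω ≤
      (μ[(A (m + 1)).indicator (fun _ => (1 : ℝ)) | ℱ m]) ω)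
    (θ : ℝ) (hθ0 : 0 < θ) (hθ1 : θ < 1) :
    ∀ᵐ ω ∂μ,
      Tendsto (fun x : ℕ => Sθ {k | ω ∈ A k} Q θ x /
        (√(2 * θ * x) * ∑ q ∈ Finset.Icc 1 ⌊(x : ℝ) ^ θ⌋₊, 1 / √(phiQ Q q : ℝ))) atTop (𝓝 1) ∧
      (Q = 1 → Tendsto (fun x : ℕ => Sθ {k | ω ∈ A k} Q θ x / (x : ℝ) ^ ((1 + θ) / 2)) atTop
        (𝓝 (2 * √(2 * θ)))) := by
  classical
  have hprof := Pool.Agent.R528.RM.dens_profile (μ := μ) (ℱ := ℱ) hA Q hQ hcop hd
  have hall : ∀ᵐ ω ∂μ, ∀ m : ℕ, ∀ᶠ x : ℕ in atTop,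
      |∑ q ∈ Finset.Icc 1 ⌊(x : ℝ) ^ θ⌋₊, Pool.Agent.R528.RM.EE A Q x q ω - ∑ q ∈ Finset.Icc 1 ⌊(x : ℝ) ^ θ⌋₊, Pool.Agent.R528.RM.Bmn Q θ x q| ≤
      7 * (1 / ((m : ℝ) + 10)) * ∑ q ∈ Finset.Icc 1 ⌊(x : ℝ) ^ θ⌋₊, Pool.Agent.R528.RM.Bmn Q θ x q :=
    ae_all_iff.2 fun m => Pool.Agent.R528.RM.EH_eta hA hQ hprof hmono hθ0 hθ1 (by positivity) (by
      apply one_div_le_one_div_of_le (by norm_num)
      linarith [Nat.cast_nonneg (α := ℝ) m])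
  filter_upwards [hall] with ω hω
  have h1 : Tendsto (fun x : ℕ => Sθ {k | ω ∈ A k} Q θ x /
        (√(2 * θ * x) * ∑ q ∈ Finset.Icc 1 ⌊(x : ℝ) ^ θ⌋₊, 1 / √(phiQ Q q : ℝ))) atTop (𝓝 1) := by
    rw [Metric.tendsto_nhds]
    intro ε hε
    obtain ⟨m, hm⟩ := exists_nat_gt (7 / ε)
    filter_upwards [hω m, eventually_ge_atTop 1] with x h1 h2
    have hx : (0 : ℝ) < x := by exact_mod_cast (by omega : 0 < x)
    have hx1 : (1 : ℝ) ≤ x := by exact_mod_cast h2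
    have hS : Sθ {k | ω ∈ A k} Q θ x = ∑ q ∈ Finset.Icc 1 ⌊(x : ℝ) ^ θ⌋₊, Pool.Agent.R528.RM.EE A Q x q ω := by
      unfold Sθ
      exact Finset.sum_congr rfl fun q _ => E_eq hcop x q ω
    rw [hS, ← sum_Bmn]
    set D := ∑ q ∈ Finset.Icc 1 ⌊(x : ℝ) ^ θ⌋₊, Pool.Agent.R528.RM.Bmn Q θ x q with hD
    have hDpos : 0 < D := by
      rw [hD]
      apply Finset.sum_pos
      · intro q hq
        have hq1 := (Finset.mem_Icc.1 hq).1
        have := Pool.Agent.R528.RM.adm_pos Q (q := q) (by omega)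
        exact Real.sqrt_pos.2 (div_pos (by positivity) this)
      · refine ⟨1, Finset.mem_Icc.2 ⟨le_rfl, ?_⟩⟩
        apply Nat.le_floor
        rw [Nat.cast_one]
        exact Real.one_le_rpow hx1 hθ0.le
    set T := ∑ q ∈ Finset.Icc 1 ⌊(x : ℝ) ^ θ⌋₊, Pool.Agent.R528.RM.EE A Q x q ω with hT
    rw [Real.dist_eq]
    have h3 : T / D - 1 = (T - D) / D := by field_simp
    rw [h3, abs_div, abs_of_pos hDpos, div_lt_iff₀ hDpos]
    refine lt_of_le_of_lt h1 ?_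
    apply mul_lt_mul_of_pos_right _ hDpos
    rw [mul_one_div, div_lt_iff₀ (by positivity)]
    rw [div_lt_iff₀ hε] at hm
    nlinarith only [hm, hε]
  refine ⟨h1, fun hQ1 => ?_⟩
  subst hQ1
  have h2 := (h1.mul_const (√(2 * θ))).mul (sum_lim hθ0)
  rw [one_mul, mul_comm (√(2 * θ)) 2] at h2
  refine h2.congr' ?_
  filter_upwards [eventually_ge_atTop 1] with x hx
  have hx0 : (0 : ℝ) < x := by exact_mod_cast (by omega : 0 < x)
  have hx1 : (1 : ℝ) ≤ x := by exact_mod_cast hx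
  have e1 : ∑ q ∈ Finset.Icc 1 ⌊(x : ℝ) ^ θ⌋₊, 1 / √(phiQ 1 q : ℝ) = ∑ q ∈ Finset.Icc 1 ⌊(x : ℝ) ^ θ⌋₊, 1 / √(q : ℝ) := by
    refine Finset.sum_congr rfl fun q _ => ?_
    rw [phiQ_one]
  rw [e1]
  set G := ∑ q ∈ Finset.Icc 1 ⌊(x : ℝ) ^ θ⌋₊, 1 / √(q : ℝ) with hG
  have hGpos : 0 < G := by
    rw [hG]
    apply Finset.sum_pos
    · intro q hq
      have hq1 := (Finset.mem_Icc.1 hq).1
      have : (0 : ℝ) < q := by exact_mod_cast hq1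
      positivity
    · refine ⟨1, Finset.mem_Icc.2 ⟨le_rfl, ?_⟩⟩
      apply Nat.le_floor
      rw [Nat.cast_one]
      exact Real.one_le_rpow hx1 hθ0.le
  have e2 : √(2 * θ * x) = √(2 * θ) * √(x : ℝ) := Real.sqrt_mul (by positivity) _
  have e3 : (x : ℝ) ^ ((1 + θ) / 2) = √(x : ℝ) * (x : ℝ) ^ (θ / 2) := by
    rw [Real.sqrt_eq_rpow, ← Real.rpow_add hx0]
    congr 1
    ring
  rw [e2, e3]
  have p1 : 0 < √(2 * θ) := Real.sqrt_pos.2 (by positivity)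
  have p2 : 0 < √(x : ℝ) := Real.sqrt_pos.2 hx0
  have p3 : 0 < (x : ℝ) ^ (θ / 2) := Real.rpow_pos_of_pos hx0 _
  field_simp
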