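import Pool.Agent.R429.OS.Cls

/-!
# One-sided bounds in the class 1

The lower half of Montgomery's bound, in the reduced classes `b = 1 mod q` of one modulus `m` (a
multiple of `q`) for each dyadic interval, in mean over `x` and over these classes, implies that the
L-functions modulo `q` have no zeros in a half plane (for `m ≤ X ^ ε`: the Riemann hypothesis for all
characters modulo `q`).
-/

set_option autoImplicit false

namespace Pool.Agent.Results.MP_848d44_nt.OneSidedClassOne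

open MeasureTheory Filter Topology

/-- `ψ(x; m, b)`: the sum of `Λ(n)` over `1 ≤ n ≤ x` with `n ≡ b mod m`. -/
noncomputable def psi (x : ℝ) (m b : ℕ) : ℝ :=
  ∑ n ∈ (Finset.Icc 1 ⌊x⌋₊).filter (fun n => n ≡ b [MOD m]), ArithmeticFunction.vonMangoldt n

/-- The negative part of the error: `max(x/φ(m) - ψ(x; m, b), 0)`. -/
noncomputable def neg (x : ℝ) (m b : ℕ) : ℝ := max (x / m.totient - psi x m b) 0

/-- The reduced residues `b < m` modulo `m` with `b ≡ 1 mod q`. -/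
def classes (q m : ℕ) : Finset ℕ := (Finset.range m).filter (fun b => b.Coprime m ∧ b ≡ 1 [MOD q])

/-- No L-function of a Dirichlet character modulo `q` has a zero with real part greater than `y`
(`s = 1` excluded for the principal character, whose L-function has a pole there). -/
def NoZeros (q : ℕ) [NeZero q] (y : ℝ) : Prop :=
  ∀ χ : DirichletCharacter ℂ q, ∀ s : ℂ, y < s.re → (s ≠ 1 ∨ χ ≠ 1) → DirichletCharacter.LFunction χ s ≠ 0

theorem classes_one {m b : ℕ} (hb : b < m) (h : b.Coprime m) (q : ℕ) : b ∈ classes q m ↔ b ≡ 1 [MOD q] := by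
  unfold classes
  rw [Finset.mem_filter, Finset.mem_range]
  exact ⟨fun h1 => h1.2.2, fun h1 => ⟨hb, h, h1⟩⟩

theorem result (q : ℕ) [NeZero q] (y : ℝ) (hy : 0 < y) (hy1 : y ≤ 1) :
    -- (1) one class, in mean
    ((∀ ε : ℝ, 0 < ε → ∀ᶠ X : ℝ in atTop, ∫ x in X..(2 * X), neg x q 1 ≤ X ^ (1 + y + ε)) →
      NoZeros q y) ∧
    -- (2) one modulus for each dyadic interval, in mean over the classes
    ((∀ ε : ℝ, 0 < ε → ∀ᶠ X : ℝ in atTop, ∃ m : ℕ, 0 < m ∧ q ∣ m ∧
      ∫ x in X..(2 * X), ∑ b ∈ classes q m, neg x m b ≤ X ^ (1 + y + ε)) → NoZeros q y) ∧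
    -- (3) the lower half of Montgomery's bound
    (1 / 2 ≤ y → (∀ ε : ℝ, 0 < ε → ∀ᶠ X : ℝ in atTop, ∃ m : ℕ, 0 < m ∧ q ∣ m ∧
      (m : ℝ) ≤ X ^ (2 * y - 1 + ε) ∧ ∀ x ∈ Set.Icc X (2 * X), ∀ b ∈ classes q m,
        x / m.totient - x ^ (1 / 2 + ε) / √m ≤ psi x m b) → NoZeros q y) ∧
    -- (4) one modulus for each dyadic interval and the generalized Riemann hypothesis
    ∀ N : ℝ → ℕ, (∀ k : ℕ, 0 < k → ∀ᶠ X : ℝ in atTop, k ∣ N X) →
      (∀ ε : ℝ, 0 < ε → ∀ᶠ X : ℝ in atTop, 0 < N X ∧ (N X : ℝ) ≤ X ^ ε ∧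
        ∀ x ∈ Set.Icc X (2 * X), ∀ b : ℕ, b.Coprime (N X) →
          x / (N X).totient - x ^ (1 / 2 + ε) / √(N X) ≤ psi x (N X) b) →
      ∀ (k : ℕ) [NeZero k], NoZeros k (1 / 2) := by
  refine ⟨fun h => Pool.Agent.R429.OS.part1 q hy hy1 h, fun h => Pool.Agent.R429.OS.part2 q hy hy1 h,
    fun hy2 h => Pool.Agent.R429.OS.part3 q hy2 hy1 h, fun N hN h k _ => ?_⟩
  refine Pool.Agent.R429.OS.part3 k (y := 1 / 2) le_rfl (by norm_num) fun ε hε => ?_
  filter_upwards [h ε hε, hN k (NeZero.pos k)] with X h1 h2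
  refine ⟨N X, h1.1, h2, ?_, fun x hx b hb => ?_⟩
  · rw [show 2 * (1 / 2 : ℝ) - 1 + ε = ε by ring]
    exact h1.2.1
  · have h3 : b ∈ classes k (N X) := hb
    unfold classes at h3
    rw [Finset.mem_filter] at h3
    exact h1.2.2 x hx b h3.2.1

end Pool.Agent.Results.MP_848d44_nt.OneSidedClassOne
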