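import Pool.Agent.R516.QN

/-!
# The order of magnitude of `ψ(x, q, a)` for every modulus `q ≤ x / (log x) ^ 27`

For EVERY modulus `q ≤ x / (log x) ^ 27`: the upper bound `(18 / 5 + ε) x / φ(q)` for almost all reduced
classes, the lower bound `μ x / φ(q)` for a proportion `(1 - μ) / (18 / 5 - μ) - ε` of them (`5 / 18 - ε`
for `μ → 0`), and the mean square `(13 / 5 + ε) (x / φ(q)) ^ 2` for the error term in Montgomery's conjecture.
The proof majorizes the primes, in almost all classes, by sieve weights of level `x ^ (5 / 9)`; the level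
`x ^ (1 / 2)` would give `4`, `(1 - μ) / (4 - μ)` and `3`.
-/

set_option autoImplicit false

namespace Pool.Agent.Results.MP_848d44_nt.OrderOfMagnitude

open Finset

/-- `ψ(x, q, a)`: the sum of `Λ(n)` over `n ≤ x`, `n ≡ a (mod q)` -/
noncomputable def psi (x : ℝ) (q a : ℕ) : ℝ :=
  ∑ n ∈ (Icc 1 ⌊x⌋₊).filter (fun n => n ≡ a [MOD q]), ArithmeticFunction.vonMangoldt n

/-- the reduced residue classes modulo `q` -/
def reduced (q : ℕ) : Finset ℕ := (range q).filter (fun a => a.Coprime q)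

open Classical in
/-- For every `ε > 0` there are `κ > 0` and `x₀` such that for all real `x ≥ x₀` and ALL moduli `q ≥ 1` with
`q (log x) ^ 27 ≤ x`: (i) `ψ(x, q, a) ≤ (18 / 5 + ε) x / φ(q)` for all but at most
`φ(q) (x ^ (-κ) + (log x) ^ 24 q / x)` reduced classes `a`; (ii) for every `0 ≤ μ ≤ 1`, at least
`((1 - μ) / (18 / 5 - μ) - ε) φ(q)` reduced classes `a` satisfy
`μ x / φ(q) ≤ ψ(x, q, a) ≤ (18 / 5 + ε) x / φ(q)`; (iii) the sum of `(ψ(x, q, a) - x / φ(q)) ^ 2` over the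
reduced classes is at most `(13 / 5 + ε) x ^ 2 / φ(q)`. -/
theorem result : ∀ ε : ℝ, 0 < ε → ∃ κ x₀ : ℝ, 0 < κ ∧ ∀ x : ℝ, x₀ ≤ x → ∀ q : ℕ, 1 ≤ q →
    q * (Real.log x) ^ 27 ≤ x →
    (((reduced q).filter (fun a =>
      (18 / 5 + ε) * (x / Nat.totient q) < psi x q a)).card : ℝ) ≤
        Nat.totient q * (x ^ (-κ) + (Real.log x) ^ 24 * q / x) ∧
    (∀ μ : ℝ, 0 ≤ μ → μ ≤ 1 → ((1 - μ) / (18 / 5 - μ) - ε) * Nat.totient q ≤
      (((reduced q).filter (fun a => μ * (x / Nat.totient q) ≤ psi x q a ∧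
        psi x q a ≤ (18 / 5 + ε) * (x / Nat.totient q))).card : ℝ)) ∧
    ∑ a ∈ reduced q, (psi x q a - x / Nat.totient q) ^ 2 ≤
      (13 / 5 + ε) * (x ^ 2 / Nat.totient q) := by
  intro ε hε
  obtain ⟨δ, hδ, hδ1, hδε⟩ : ∃ δ : ℝ, 0 < δ ∧ δ ≤ 1 / 8 ∧ δ ≤ ε / 12 :=
    ⟨min (1 / 8) (ε / 12), lt_min (by norm_num) (by positivity), min_le_left _ _, min_le_right _ _⟩
  obtain ⟨κ, hκ, hev⟩ := Pool.Agent.R516.mainPQ δ hδ hδ1
  obtain ⟨x₀, hx₀⟩ := Filter.eventually_atTop.1 (hev.and (Filter.eventually_ge_atTop (1 : ℝ)))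
  refine ⟨κ, x₀, hκ, fun x hx q hq hq27 => ?_⟩
  obtain ⟨hmain, hx1⟩ := hx₀ x hx
  obtain ⟨h1, h2, h3⟩ := hmain q hq hq27
  have hE : 0 ≤ x / (Nat.totient q : ℝ) := by positivity
  have hc : (18 / 5 + 2 * δ) * (x / (Nat.totient q : ℝ)) ≤ (18 / 5 + ε) * (x / Nat.totient q) :=
    mul_le_mul_of_nonneg_right (by linarith) hE
  have hφ : (0 : ℝ) ≤ Nat.totient q := Nat.cast_nonneg _
  refine ⟨?_, fun μ hμ0 hμ1 => ?_, ?_⟩
  · refine le_trans ?_ h1
    apply Nat.cast_le.2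
    apply Finset.card_le_card
    intro a ha
    rw [Finset.mem_filter] at ha
    rw [Finset.mem_sdiff]
    refine ⟨ha.1, fun hg => ?_⟩
    unfold Pool.Agent.R516.goodc at hg
    rw [Finset.mem_filter] at hg
    exact absurd (hg.2.trans hc) (not_le.2 ha.2)
  · refine le_trans ?_ ((h2 μ hμ0 hμ1).trans ?_)
    · apply mul_le_mul_of_nonneg_right _ hφ
      linarith
    · apply Nat.cast_le.2
      apply Finset.card_le_card
      intro a ha
      rw [Finset.mem_filter] at ha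
      obtain ⟨hg, h4⟩ := ha
      unfold Pool.Agent.R516.goodc at hg
      rw [Finset.mem_filter] at hg
      rw [Finset.mem_filter]
      exact ⟨hg.1, h4, hg.2.trans hc⟩
  · refine h3.trans ?_
    apply mul_le_mul_of_nonneg_right _ (by positivity)
    linarith

end Pool.Agent.Results.MP_848d44_nt.OrderOfMagnitude
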