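import Pool.Agent.R502.WD.ApPsi

/-!
# Large errors at prescribed scales, for a positive proportion of the classes

The question is about the error `ψ(x, q, a) - x / φ(q)` uniformly in `q ≤ x`. Here `q` is a large
prime and `x` is between `q` and `q (log q) ^ A`.

1. For every `λ` there is `c > 0` such that for all `A`, all large primes `q` and EVERY set `J` of at
   most `λ log q` integers up to `(log q) ^ A`, for at least `c q` classes `a` modulo `q` none of the
   members `a + j q`, `j ∈ J`, is a power of a prime.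
2. For every `λ` and `m` there is `c > 0` such that for all `A`, all large primes `q` and ALL real
   numbers `x_1, ..., x_m` between `0` and `q (log q) ^ A`, for at least `c q` reduced classes `a`
   modulo `q` one has `ψ(x_i + λ q log q, q, a) = ψ(x_i, q, a)` for all `i`. (So the error drops by
   `λ q log q / φ(q)` on each of the `m` prescribed intervals.)
-/

set_option autoImplicit false

open Finset

namespace Pool.Agent.Results.MP_848d44_nt.PrescribedScales

/-- `ψ(x, q, a)` -/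
noncomputable def psi (x : ℝ) (q a : ℕ) : ℝ :=
  ∑ n ∈ (Icc 1 ⌊x⌋₊).filter (fun n => n ≡ a [MOD q]), ArithmeticFunction.vonMangoldt n

open Classical in
/-- **Large errors at prescribed scales.** -/
theorem result :
    (∀ lam : ℝ, 0 < lam → ∃ c : ℝ, 0 < c ∧ ∀ A : ℕ, ∃ q₀ : ℕ, ∀ q : ℕ, q₀ ≤ q → q.Prime →
      ∀ J : Finset ℕ, (J.card : ℝ) ≤ lam * Real.log q → (∀ j ∈ J, (j : ℝ) ≤ Real.log q ^ A) →
      c * q ≤ (((range q).filter (fun a => a.Coprime q ∧
        ∀ j ∈ J, ¬ IsPrimePow (a + j * q))).card : ℝ)) ∧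
    (∀ lam : ℝ, 0 < lam → ∀ m : ℕ, ∃ c : ℝ, 0 < c ∧ ∀ A : ℕ, ∃ q₀ : ℕ, ∀ q : ℕ, q₀ ≤ q →
      q.Prime → ∀ x : Fin m → ℝ, (∀ i, 0 ≤ x i ∧ x i ≤ q * Real.log q ^ A) →
      c * q ≤ (((range q).filter (fun a => a.Coprime q ∧
        ∀ i, psi (x i + lam * q * Real.log q) q a = psi (x i) q a)).card : ℝ)) := by
  refine ⟨?_, fun lam hlam m => Pool.Agent.R502.WD.psi_scales lam hlam m⟩
  intro lam hlam
  obtain ⟨c, hc, h⟩ := Pool.Agent.R502.WD.psi_sets lam hlam
  refine ⟨c, hc, fun A => ?_⟩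
  obtain ⟨q₀, hq₀⟩ := h A
  refine ⟨q₀, fun q hq hqp J hJ hJA => (hq₀ q hq hqp J hJ hJA).trans ?_⟩
  apply Nat.cast_le.2
  apply card_le_card
  intro a ha
  rw [mem_filter] at ha ⊢
  refine ⟨ha.1, ha.2.1, fun j hj hpp => ?_⟩
  exact (ArithmeticFunction.vonMangoldt_eq_zero_iff.1 (ha.2.2 j hj)) hpp

end Pool.Agent.Results.MP_848d44_nt.PrescribedScales
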